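import Pool.Agent.U180.NG.Stm

/-!
# Project NG, package HOEF: Hoeffding's inequality for indicator functions
-/

set_option autoImplicit false

open MeasureTheory ProbabilityTheory Filter Topology
open scoped NNReal

namespace Pool.Agent.U978.NG

open Pool.Agent.U180.NG

section
variable {Ω ι : Type} [MeasurableSpace Ω] {P : Measure Ω} [IsProbabilityMeasure P]

omit [IsProbabilityMeasure P] in
lemma one_sided (Y : ι → Ω → ℝ) (S : Finset ι) (A s : ℝ) (hi : iIndepFun Y P)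
    (hsub : ∀ i, HasSubgaussianMGF (Y i) (1 / 4 : ℝ≥0) P) (hS : 0 < S.card)
    (hSA : (S.card : ℝ) ≤ A) (hs : 0 ≤ s) :
    P.real {ω | s ≤ ∑ i ∈ S, Y i ω} ≤ Real.exp (-2 * s ^ 2 / A) := by
  have h := HasSubgaussianMGF.measure_sum_ge_le_of_iIndepFun hi (c := fun _ => (1 / 4 : ℝ≥0))
    (s := S) (fun i _ => hsub i) hs
  refine h.trans ?_
  have hc : (0 : ℝ) < S.card := by exact_mod_cast hS
  have hsum : ((∑ i ∈ S, (1 / 4 : ℝ≥0) : ℝ≥0) : ℝ) = S.card / 4 := by
    push_cast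
    rw [Finset.sum_const, nsmul_eq_mul]
    ring
  rw [Real.exp_le_exp, hsum]
  have h1 : -s ^ 2 / (2 * ((S.card : ℝ) / 4)) = -(2 * s ^ 2 / S.card) := by
    field_simp
    ring
  have h2 : -2 * s ^ 2 / A = -(2 * s ^ 2 / A) := by ring
  rw [h1, h2, neg_le_neg_iff]
  exact div_le_div_of_nonneg_left (by positivity) hc hSA

end

theorem t_HOEF : S_HOEF := by
  intro Ω ι _ P _ X S A s hm hi hX hA hSA hs
  rcases Nat.eq_zero_or_pos S.card with h0 | hpos
  · have hS : S = ∅ := Finset.card_eq_zero.1 h0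
    subst hS
    rcases hs.eq_or_lt with rfl | hs
    · have h1 : P.real {ω | (0 : ℝ) ≤ |∑ i ∈ (∅ : Finset ι), (X i ω - ∫ ω, X i ω ∂P)|} ≤ 1 :=
        measureReal_le_one
      refine h1.trans ?_
      simp
    · have h1 : {ω | s ≤ |∑ i ∈ (∅ : Finset ι), (X i ω - ∫ ω, X i ω ∂P)|} = ∅ := by
        ext ω
        simp [hs]
      rw [h1]
      simp only [measureReal_empty]
      positivity
  set Y : ι → Ω → ℝ := fun i ω => X i ω - ∫ ω, X i ω ∂P with hY
  have hYi : iIndepFun Y P :=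
    hi.comp (fun i x => x - ∫ ω, X i ω ∂P) fun i => measurable_id.sub_const _
  have hsub : ∀ i, HasSubgaussianMGF (Y i) (1 / 4 : ℝ≥0) P := by
    intro i
    have h := hasSubgaussianMGF_of_mem_Icc (μ := P) (X := X i) (a := 0) (b := 1)
      (hm i).aemeasurable (Filter.Eventually.of_forall fun ω => by
        rcases hX i ω with h | h <;> rw [h] <;> constructor <;> norm_num)
    have hc : ((‖(1 : ℝ) - 0‖₊ / 2) ^ 2 : ℝ≥0) = 1 / 4 := by
      apply NNReal.coe_injective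
      push_cast
      rw [Real.norm_eq_abs]
      norm_num
    rw [hc] at h
    exact h
  have hYi' : iIndepFun (fun i ω => -(Y i ω)) P :=
    hYi.comp (fun _ x => -x) fun _ => measurable_neg
  have hsub' : ∀ i, HasSubgaussianMGF (fun ω => -(Y i ω)) (1 / 4 : ℝ≥0) P :=
    fun i => (hsub i).neg
  have e1 := one_sided Y S A s hYi hsub hpos hSA hs
  have e2 := one_sided (fun i ω => -(Y i ω)) S A s hYi' hsub' hpos hSA hs
  have hsubset : {ω | s ≤ |∑ i ∈ S, (X i ω - ∫ ω, X i ω ∂P)|} ⊆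
      {ω | s ≤ ∑ i ∈ S, Y i ω} ∪ {ω | s ≤ ∑ i ∈ S, -(Y i ω)} := by
    intro ω hω
    rw [Set.mem_ofPred_eq, le_abs] at hω
    rcases hω with h | h
    · exact Or.inl h
    · right
      rw [Set.mem_ofPred_eq, Finset.sum_neg_distrib]
      exact h
  calc P.real {ω | s ≤ |∑ i ∈ S, (X i ω - ∫ ω, X i ω ∂P)|}
      ≤ P.real ({ω | s ≤ ∑ i ∈ S, Y i ω} ∪ {ω | s ≤ ∑ i ∈ S, -(Y i ω)}) :=
        measureReal_mono hsubset
    _ ≤ P.real {ω | s ≤ ∑ i ∈ S, Y i ω} + P.real {ω | s ≤ ∑ i ∈ S, -(Y i ω)} :=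
        measureReal_union_le _ _
    _ ≤ Real.exp (-2 * s ^ 2 / A) + Real.exp (-2 * s ^ 2 / A) := add_le_add e1 e2
    _ = 2 * Real.exp (-2 * s ^ 2 / A) := by ring

end Pool.Agent.U978.NG
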